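import Pool.Agent.Helper69.MC.Defs
import Pool.Agent.Helper31.CY.St1

/-!
# Project MC (MP_9583f0_gt), part A: the convex hull property.  Statements with proofs
-/

set_option autoImplicit false

open Set Topology Filter MeasureTheory
open Pool.Agent.Helper31.CY Pool.Agent.Helper69.MF

namespace Pool.Agent.Helper69.MC

/-- SMX (strong maximum principle for the minimal surface equation).

PROOF.  `W1 = D1 u`, `W2 = D2 u` (partial derivatives, as in CY.Defs), `L w = (1 + W2²) w₁₁ - 2 W1 W2 w₁₂ + (1 + W1²) w₂₂`, uniformly elliptic with bounded coefficients on a smaller disc.  Suppose `u` is not constant `= u q` near `q`: then in every small disc around `q` there is a point `c` with `u c > u q`,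
closer to `q` than to the boundary of the disc; let `R` be the distance of `c` to the closed set `Z = {u = u q}` (minimum of `u`), `z ∈ Z` with `|z - c| = R`; at `z` the gradient of `u` vanishes (interior minimum).  Barrier `v = e^{-α|x-c|²} - e^{-αR²}` on `R/2 ≤ |x - c| ≤ R`: `L v > 0` for large `α`; for small `ε > 0`
`w = u - u q - ε v` is `≥ 0` on both boundary circles, `L w = -ε L v < 0`, so `w` has no interior minimum (there the Hessian would be `≥ 0` and `L w ≥ 0`), hence `w ≥ 0`.  On the segment from `c` to `z`: `u - u q ≥ ε v`, both vanish at `z`, so the derivative of `u` at `z` in the direction `c - z` is at least `ε` times that of `v`,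
which is `> 0`: a contradiction. -/
def StSMX : Prop := ∀ (u : ℝ × ℝ → ℝ) (V : Set (ℝ × ℝ)) (q : ℝ × ℝ), IsOpen V → q ∈ V →
  ContDiffOn ℝ 2 u V → (∀ x ∈ V, u q ≤ u x) →
  (∀ x ∈ V, (1 + D2 u x ^ 2) * D1 (D1 u) x - 2 * D1 u x * D2 u x * D2 (D1 u) x +
    (1 + D1 u x ^ 2) * D2 (D2 u) x = 0) →
  ∃ r : ℝ, 0 < r ∧ ∀ x : ℝ × ℝ, dist x q < r → u x = u q

/-- GRM (a regular point with horizontal tangent plane: graph and minimal surface equation).

PROOF.  Implicit function theorem: near `p`, `f x = 0 ↔ x 2 = u (x 0, x 1)`, `u` is `C²` (the implicit function of a `C²` function), `D 2 f ≠ 0` near `p`.  Differentiate `f (pt a b (u (a,b))) = 0` twice: with `fi = D i f`, `fij = D j (D i f)` (symmetric) at the point of the graph: `f0 + f2 u₁ = 0`, `f1 + f2 u₂ = 0`,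
`f00 + 2 f02 u₁ + f22 u₁² + f2 u₁₁ = 0`, `f01 + f02 u₂ + f12 u₁ + f22 u₁ u₂ + f2 u₁₂ = 0`, `f11 + 2 f12 u₂ + f22 u₂² + f2 u₂₂ = 0`.  Insert `f0 = -f2 u₁`, `f1 = -f2 u₂` in `mse f = 0`: `mse f = (f0² + f1² + f2²)(f00 + f11 + f22) - ∑ fi fj fij`, and eliminate `f00, f01, f11`: the result is
`-f2³ [(1 + u₂²) u₁₁ - 2 u₁ u₂ u₁₂ + (1 + u₁²) u₂₂] = 0`. -/
def StGRM : Prop := ∀ (S : Set E3) (p : E3), p ∈ S → RegP S p →
  (∀ v ∈ TCn S p, v 2 = 0) →
  ∃ (u : ℝ × ℝ → ℝ) (V : Set (ℝ × ℝ)) (r : ℝ), IsOpen V ∧ (p 0, p 1) ∈ V ∧ 0 < r ∧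
    ContDiffOn ℝ 2 u V ∧ u (p 0, p 1) = p 2 ∧
    (∀ x ∈ V, (1 + D2 u x ^ 2) * D1 (D1 u) x - 2 * D1 u x * D2 u x * D2 (D1 u) x +
      (1 + D1 u x ^ 2) * D2 (D2 u) x = 0) ∧
    (∀ q ∈ V, |u q - p 2| < r) ∧
    ∀ x : E3, (x 0, x 1) ∈ V → |x 2 - p 2| < r → (x ∈ S ↔ x 2 = u (x 0, x 1))

/-- HPL (regular points where the surface is on one side of a horizontal plane).  Uses `StTC2`, `StGRM`, `StSMX`.

PROOF.  First alternative: if `v ∈ TCn S p` then `v 2 ≥ 0` (limit of `t n (x n - p)`), and `TCn S p` is a linear subspace (TC2), so `v 2 = 0`.  GRM; shrink `V` so that the graph points are in the ball: `u ≥ p 2`.  SMX: `u = p 2` near `(p 0, p 1)`.  Second alternative: the same for the mirror image, or apply SMX to `-u` (which satisfies the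
same equation). -/
def StHPL : Prop := ∀ (S : Set E3) (p : E3), p ∈ S → RegP S p →
  ((∃ r : ℝ, 0 < r ∧ ∀ x ∈ S, dist x p < r → p 2 ≤ x 2) ∨
    (∃ r : ℝ, 0 < r ∧ ∀ x ∈ S, dist x p < r → x 2 ≤ p 2)) →
  ∃ r : ℝ, 0 < r ∧ ∀ x : E3, dist x p < r → (x ∈ S ↔ x 2 = p 2)

/-- HSS (singular points are not on one side of a horizontal plane).  Uses `StTC1`, `StMDY`, `StMDT`.

PROOF.  `TCn S p = A⁻¹ M` (TC1, `A = fderiv ℝ Φ p` isometric).  `Ycone` contains `d_1, d_2, d_3` (the unit vectors of the three rays, sum `0`) and `± e₃`; if `S` is above the plane then `(A⁻¹ w) 2 ≥ 0` for all `w ∈ M`; so `(A⁻¹ d_i) 2 = 0`, `(A⁻¹ e₃) 2 = 0`; but `d_1, d_2, e₃` span `E3`, so `(A⁻¹ w) 2 = 0` for all `w`: contradiction.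
`Tcone`: `v_i = tv i`, `∑ v_i = 0`, the same.  Below the plane: the same with the opposite sign. -/
def StHSS : Prop := ∀ (S : Set E3) (p : E3), (ModelAt S Ycone p ∨ ModelAt S Tcone p) →
  ¬ ((∃ r : ℝ, 0 < r ∧ ∀ x ∈ S, dist x p < r → p 2 ≤ x 2) ∨
    (∃ r : ℝ, 0 < r ∧ ∀ x ∈ S, dist x p < r → x 2 ≤ p 2))

/-- CLO (clopen sets in the plane minus a convex curve).

PROOF.  `K` closed, so `frontier K = K \ interior K`, the complement of the frontier is `interior K ∪ Kᶜ`, disjoint open sets.  `interior K` is convex, so connected.  `Kᶜ` is connected: `o ∈ interior K`, `x ∉ K`: the ray `o + t(x - o)`, `t ≥ 1`, is in `Kᶜ` (a point of `K` on it would imply that `x`, which is between it and the interior point `o`, is in `K`),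
and `{o + t(cos s, sin s) : t > R}` is connected (image of a connected set) and contained in `Kᶜ` for large `R`.  `C` is open and relatively closed in each of the two, so it contains it or is disjoint; `Kᶜ` is unbounded. -/
def StCLO : Prop := ∀ K : Set (ℝ × ℝ), CB K →
  IsPreconnected Kᶜ ∧ IsPreconnected (interior K) ∧ frontier K = K \ interior K ∧
  ∀ C : Set (ℝ × ℝ), IsOpen C → Bornology.IsBounded C → (closure C \ C ⊆ frontier K) →
    C ∩ frontier K = ∅ → C = ∅ ∨ C = interior K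

/-- HUL (convex hull property in the vertical direction).  Uses `StHPL`, `StHSS`.

PROOF.  Let `M = max x 2` on the compact set `S` (nonempty), and suppose `M > h`.  `C = {(a,b) : pt a b M ∈ S}` is compact and nonempty; its points are not in `Γ`, so by MPS.int, HSS and HPL `S` is near them the plane `x 2 = M`: `C` is open.  A nonempty compact open subset of `ℝ × ℝ`: contradiction.  The minimum: the same.  Second claim: at `p` the surface is on one side of the
horizontal plane through `p` (first claim), so `p` is regular (MPS.int, HSS) and HPL. -/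
def StHUL : Prop := ∀ (K0 K1 : Set (ℝ × ℝ)) (h : ℝ), 0 < h → ∀ S : Set E3, MPS S (Gm K0 K1 h) →
  (∀ x ∈ S, 0 ≤ x 2 ∧ x 2 ≤ h) ∧
  ∀ p ∈ S, p ∉ Gm K0 K1 h → (p 2 = 0 ∨ p 2 = h) →
    ∃ r : ℝ, 0 < r ∧ ∀ x : E3, dist x p < r → (x ∈ S ↔ x 2 = p 2)

/-- BNB (near the boundary).  Uses `StTC1`, `StTC2`.

PROOF.  `Φ`, `U` from BdyP, shrink `U`: `Φ` is injective on `U` with invertible derivatives, and `B = {y : |y| < ε} ⊆ Φ U`, `V = Φ⁻¹ B ∩ U`; `S ∩ V = {x ∈ V : 0 ≤ Φ x 0, Φ x 1 = 0}`, `E = {x ∈ V : 0 < Φ x 0, Φ x 1 = 0}` is connected (image of a convex set), `S ∩ V ⊆ closure E`.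
If `x ∈ S ∩ V`, `Φ x 0 = 0`: by TC1 (chart `Φ - Φ x`) `TCn S x = {v | 0 ≤ (A v) 0, (A v) 1 = 0}` with `A = fderiv Φ x`, not invariant under `-1`; so `x` is not regular (TC2: the cone would be a linear subspace).  If `x ∈ E` then `TCn S x = {v | (A v) 1 = 0}`, a linear subspace, so `x ∉ Γ` (BdyP at `x` and TC1 would give a cone which is not
invariant under `-1`). -/
def StBNB : Prop := ∀ (S Γ : Set E3), MPS S Γ → ∀ p ∈ Γ, ∃ (E V : Set E3), IsOpen V ∧ p ∈ V ∧
  IsPreconnected E ∧ E ⊆ S \ Γ ∧ S ∩ V ⊆ closure E ∧ ∀ x ∈ S ∩ V, RegP S x → x ∈ E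

/-- SLB (a singular surface is in the open slab).  Uses `StHUL`, `StHSS`, `StCLO`, `StBNB`, `StHPL`.

PROOF.  Suppose `p ∈ S \ Γ` has `p 2 = 0` (the case `p 2 = h` is the same with the roles exchanged).  `C = {(a,b) : pt a b 0 ∈ S \ Γ}`: open (HUL, second claim: near such a point `S` is the plane `x 2 = 0`; `Γ` is closed), bounded, `C ∩ frontier K0 = ∅` (`pt a b 0 ∈ Γ` for `(a,b) ∈ frontier K0`, as `h ≠ 0`), `closure C \ C ⊆ frontier K0` (`S` is closed).
CLO: `C = interior K0` (nonempty), so `K0 × {0} ⊆ S` (`K0` is the closure of its interior) and `{x ∈ S : x 2 = 0} = K0 × {0}` (points of `Γ` of height `0` are over `frontier K0`).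
`S'' = S \ (K0 × {0}) = {x ∈ S : 0 < x 2}`.  It is closed: let `x` be a limit of points of `S''`, `x 2 = 0`, `x ∈ S`.  If `x ∉ Γ` then `S` is near `x` the plane `x 2 = 0`: contradiction.  If `x ∈ Γ`: BNB gives `E`, `V`; `E ∩ {x 2 = 0}` is closed in `E` and open in `E` (HUL, second claim), and nonempty: near `x` there are points of `interior K0 × {0}`, which are in
`S \ Γ`, of height `0`, so regular (MPS.int, HSS and HUL), so in `E`.  So `E ⊆ {x 2 = 0}`, and `S ∩ V ⊆ closure E ⊆ {x 2 = 0}`: contradiction.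
Let `y` be a singular point.  `y 2 ≠ 0`, `y 2 ≠ h` (HUL first claim, HSS), so `y ∈ S''`; let `m = min x 2` on the compact set `S''`, `0 < m ≤ y 2 < h`.  The set of `(a,b)` with `pt a b m ∈ S''` is compact, nonempty, and open (its points are not in `Γ`, near them `S = S''` is above the plane, so they are regular (HSS) and HPL): contradiction. -/
def StSLB : Prop := ∀ (K0 K1 : Set (ℝ × ℝ)) (h : ℝ), 0 < h → CB K0 → CB K1 → ∀ S : Set E3,
  MPS S (Gm K0 K1 h) → Sing S (Gm K0 K1 h) → ∀ x ∈ S, x ∉ Gm K0 K1 h → x ∈ Sl h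

end Pool.Agent.Helper69.MC
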