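import Pool.Agent.Helper69.MC.StW

/-!
# Project MC (MP_9583f0_gt), part C: cell structures are essential films.  Statements with proofs

THEOREM (parts A, B, C).  For a singular minimal Plateau surface `S` spanning two convex curves in parallel planes the following are equivalent: (1) there is a homotopy-closed set of curves such that `S`
meets all of them, but no `S \ ball q r`, `q ∈ S \ Γ`, does; (2) `S` defines a cell structure with exactly three cells in the slab; (3) every curve in the complement of `Γ` which is not contractible meets `S`, but this is not true for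
`S \ ball q r`.  Area minimizers satisfy (1).
-/

set_option autoImplicit false

open Set Topology Filter MeasureTheory
open Pool.Agent.Helper31.CY Pool.Agent.Helper69.MF

namespace Pool.Agent.Helper69.MC

/-- centre at the height `z` -/
noncomputable def ctr (o0 o1 : ℝ × ℝ) (h z : ℝ) : ℝ × ℝ := o0 + (z / h) • (o1 - o0)

/-- EMZ (minimizers are essential).  Uses `StPOS`, `StLCC`, `StFRG`, `StCNE`.

PROOF.  Let `q ∈ S \ Γ`, `r > 0`.  There is a regular point `q' ∈ S`, `q' ∉ Γ`, `dist q' q < r`: by MPS.int `q` is regular (`q' = q`) or `ModelAt S (Cn vY) q` or `ModelAt S (Cn tv) q` (CNE); LCC with `i = 0`, `j = 1` and `ρ ≤ r` so small that `ball q ρ` does not meet the closed set `Γ`, and FRG.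
POS for `q'` and `r' = r - dist q' q`: `γ ∈ 𝒞` meets `S` only in `ball q' r' ⊆ ball q r`, so it does not meet `S \ ball q r`. -/
def StEMZ : Prop := ∀ (S Γ : Set E3) (𝒞 : Set (unitInterval → E3)), IsClosed Γ → MPS S Γ →
  Mnz 𝒞 S → Ess Γ 𝒞 S

/-- GAU (gauge function of a convex body).

PROOF.  `G y = gauge {v | o + v ∈ K} (y - o)`; the set is convex, compact and a neighbourhood of `0`: `continuous_gauge`, `gauge_le_one_iff_mem_closure`, `gauge_lt_one_iff_mem_interior` (or similar), `gauge_smul_of_nonneg`. -/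
def StGAU : Prop := ∀ (K : Set (ℝ × ℝ)) (o : ℝ × ℝ), CB K → o ∈ interior K →
  ∃ G : ℝ × ℝ → ℝ, Continuous G ∧ (∀ y, 0 ≤ G y) ∧ (∀ y, G y ≤ 1 ↔ y ∈ K) ∧
    (∀ y, G y < 1 ↔ y ∈ interior K) ∧
    ∀ (y : ℝ × ℝ) (t : ℝ), 0 ≤ t → G (o + t • (y - o)) = t * G y

/-- GNC (general position with respect to a line).  Compare `StGEN` (project MF).

PROOF.  `γ` has a positive distance `3δ` from the compact set `Γ` (if `Γ = ∅` any `δ`).  Bernstein polynomials of the three coordinates (`bernsteinApproximation_uniform`; they have the same values at `0` and `1`) give a polynomial (so Lipschitz) closed path `γ'` with `|γ' - γ| ≤ δ`.  The image of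
`s ↦ (γ' s 0, γ' s 1) - ctr o0 o1 h (γ' s 2)` has measure zero in the plane (Lipschitz image of `[0,1]`), so there are arbitrarily small `(e0, e1)` with `(-e0, -e1)` not in this image.  `γ1 = γ' + (e0, e1, 0)`, `|e| ≤ δ`.  `H(t,s) = (1-t) γ s + t γ1 s` has distance at most `2δ` from `γ s`. -/
def StGNC : Prop := ∀ (Γ : Set E3) (o0 o1 : ℝ × ℝ) (h : ℝ), IsCompact Γ → h ≠ 0 →
  ∀ γ : unitInterval → E3, Lp Γ γ → ∃ γ1 : unitInterval → E3, Hot Γ γ γ1 ∧
    ∀ s, (γ1 s 0, γ1 s 1) ≠ ctr o0 o1 h (γ1 s 2)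

/-- DSK (curves which avoid the two discs are contractible).  Uses `StGNC`, `StHTE` (`Pool.Agent.Helper69.MF.StHTE`).

PROOF.  `D = Dsk K0 K1 h` is compact and contains `Γ = Gm K0 K1 h`.  `o0 ∈ interior K0`, `o1 ∈ interior K1`, GNC for `D`: `γ1`, homotopic to `γ` in the complement of `D`.  Let `z s = γ1 s 2`, `c s = ctr o0 o1 h (z s)`, `d s = (γ1 s 0, γ1 s 1) - c s ≠ 0`, `|d s| ≥ δ > 0` (compactness).
First homotopy: the point with the horizontal part `c s + (1 + tΛ) d s` and the height `z s`.  It is not in `D`: if `z s = 0` then `c s = o0` and `o0 + d s ∉ K0`, so `o0 + λ d s ∉ K0` for `λ ≥ 1` (`K0` is convex and contains `o0`); the same for `z s = h`.  For large `Λ` the horizontal part of the result is outside a ball which contains `K0` and `K1`.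
Second homotopy: the height goes linearly to `h/2`, the horizontal part is constant: not in `Γ`.  Third homotopy: linear contraction to the point `pt 0 0 (h/2)` at the height `h/2`.  HTE: transitivity (and a homotopy in the complement of `D` is one in the complement of `Γ`). -/
def StDSK : Prop := ∀ (K0 K1 : Set (ℝ × ℝ)) (h : ℝ), 0 < h → CB K0 → CB K1 →
  ∀ γ : unitInterval → E3, Lp (Dsk K0 K1 h) γ → ∃ c : E3, Hot (Gm K0 K1 h) γ (fun _ => c)

/-- ST1 (push a curve which avoids `S` out of the cells `A 0` and `A 1`).  Uses `StGAU`.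

PROOF.  `Γ = Gm K0 K1 h`.  A point of `S` of height `≤ 0` or `≥ h` is in `Γ`.  `o0 ∈ interior K0`, `G0` from GAU for `K0`.  The set of the `s` with `γ s 2 = 0`, `(γ s 0, γ s 1) ∈ K0` is compact and on it `G0 < 1` (`γ s ∉ Γ`, `frontier K0 = K0 \ interior K0`); choose `0 < δ < 1` with `G0 ≤ 1 - δ` on it.
`ρ0 y = o0 + ((1-δ)/max (G0 y) (1-δ)) • (y - o0)`: continuous, `G0 (ρ0 y) ≤ 1 - δ`, `ρ0 y = y` if `G0 y ≤ 1 - δ`.  In the same way `o1, G1, ρ1` for `K1` (height `h`).  `γ' s = (ρ0 (γ s 0, γ s 1), 0)` if `γ s ∈ A 0`, `(ρ1 (γ s 0, γ s 1), h)` if `γ s ∈ A 1`, `γ s` otherwise.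
Continuity: the sets of the `s` with `γ s ∈ A 0` and with `γ s ∈ A 1` are open and disjoint.  Let `s` be in the frontier of the first one, `x = γ s`: `x ∈ closure (A 0)`, `x ∉ A 0`, `x ∉ S`, `0 ≤ x 2 ≤ h`.  `x ∉ Sl h` (otherwise `x ∈ A 1` or `A 2`, open and disjoint from `A 0`).  `x 2 = h` is impossible: `x ∉ Γ`, and near `x` the points of the
slab are in `A 1` or in `A 2`; so `x 2 = 0`, and `(x 0, x 1) ∉ K0` is impossible in the same way, so `G0 ≤ 1 - δ` and the two formulas for `γ' s` agree.  In the same way for `A 1`.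
`γ' 0 = γ' 1`.  `H(t,s) = (1-t) γ s + t γ' s`: where `γ s ∈ A 0` its height is in `(0, h)` for `t < 1` and for `t = 1` it is a point over `interior K0` of height `0`: not in `Γ`; the same for `A 1`; otherwise it is `γ s`.  `γ' s ∉ S` (same reasons), `γ' s ∉ A 0 ∪ A 1` (heights `0`, `h`, or `γ s`). -/
def StST1 : Prop := ∀ (K0 K1 : Set (ℝ × ℝ)) (h : ℝ) (S : Set E3) (A : Fin 3 → Set E3), 0 < h →
  CB K0 → CB K1 → MPS S (Gm K0 K1 h) → (∀ x ∈ S, x ∉ Gm K0 K1 h → x ∈ Sl h) →
  Cells K0 K1 h S A → ∀ γ : unitInterval → E3, Lp (Gm K0 K1 h) γ → (∀ s, γ s ∉ S) →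
  ∃ γ' : unitInterval → E3, Hot (Gm K0 K1 h) γ γ' ∧ ∀ s, γ' s ∉ A 0 ∧ γ' s ∉ A 1 ∧ γ' s ∉ S

/-- ST2 (push the curve off the discs).  Uses `StGAU`.

PROOF.  `γ s` is in `A 2` if `0 < γ s 2 < h`.  `G0` from GAU for `K0` (`o0 ∈ interior K0`).  `Q0` = the set of the `s` with `γ s 2 = 0` which are in the closure of `{s' | 0 < γ s' 2}` (so in the closure of `{s' | 0 < γ s' 2 < h}`); for `s ∈ Q0` the point `x = γ s` is in `closure (A 2)`, not in `Γ`, and `(x 0, x 1) ∈ interior K0` is impossible (near `x` the slab is in `A 0`), so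
`G0 > 1` on the compact set `Q0`; choose `δ > 0` with `G0 ≥ 1 + δ` on `Q0`.  `ψ0 y = max 0 (1 + δ - G0 y)`, continuous, zero on `Q0`.  In the same way `G1`, `ψ1` for `K1` and the height `h`.  `H(t,s) = γ s - t ψ0 (γ s 0, γ s 1) e₃` if `γ s 2 ≤ 0`, `γ s + t ψ1 (γ s 0, γ s 1) e₃` if `γ s 2 ≥ h`, `γ s` otherwise (continuous: at
the `s` with `γ s 2 = 0` which are limits of `s'` with `γ s' 2 > 0` we have `ψ0 = 0`).  `H(t,s) ∉ Γ`: in the first case its height is `≤ 0`, and `0` only if it is `γ s`.  `γ' = H(1,·)` avoids the discs: in the first case, if the horizontal part is in `K0` then `G0 ≤ 1`, `ψ0 ≥ δ > 0`, so the height is negative. -/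
def StST2 : Prop := ∀ (K0 K1 : Set (ℝ × ℝ)) (h : ℝ) (S : Set E3) (A : Fin 3 → Set E3), 0 < h →
  CB K0 → CB K1 → MPS S (Gm K0 K1 h) → (∀ x ∈ S, x ∉ Gm K0 K1 h → x ∈ Sl h) →
  Cells K0 K1 h S A → ∀ γ : unitInterval → E3, Lp (Gm K0 K1 h) γ →
  (∀ s, γ s ∉ A 0 ∧ γ s ∉ A 1 ∧ γ s ∉ S) →
  ∃ γ' : unitInterval → E3, Hot (Gm K0 K1 h) γ γ' ∧ ∀ s, γ' s ∉ Dsk K0 K1 h

/-- WND (winding number one).

PROOF.  `ℝ × ℝ = ℂ`.  For a closed path `f : [0,1] → ℂ \ 0` let `w f = (θ 1 - θ 0)/(2π)` where `θ` is continuous, `f = |f| e^{iθ}` (path lifting; compare the module `M_ANG` of project MF); it does not depend on `θ` and is an integer.  If `|f' s - f s| < |f s|` for all `s` then `w f' = w f` (`f'/f` is in the half-plane `Re > 0`, where `arg` is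
continuous).  So `t ↦ w (H(t,·))` is locally constant (uniform continuity of `H`, `|H| ≥ m > 0`), hence constant (`[0,1]` is connected).  It is `0` for `t = 1` (constant path).  For `t = 0`: on `[0, s1]` the values are in the closed upper half-plane, `arg ∈ [0, π]` is continuous there and goes from `π` to `0`; on `[s1, 1]` they are in the closed lower half-plane,
`-arg (conj ·) ∈ [-π, 0]` is continuous there and goes from `0` to `-π`.  So `w = -1`. -/
def StWND : Prop := ∀ (H : unitInterval × unitInterval → ℝ × ℝ) (s1 : unitInterval),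
  Continuous H → (∀ q, H q ≠ (0, 0)) → (∀ t, H (t, 0) = H (t, 1)) → (∀ s, H (1, s) = H (1, 0)) →
  (H (0, 0)).1 < 0 → (H (0, 0)).2 = 0 → 0 < (H (0, s1)).1 → (H (0, s1)).2 = 0 →
  (∀ s, s ≤ s1 → 0 ≤ (H (0, s)).2) → (∀ s, s1 ≤ s → (H (0, s)).2 ≤ 0) → False

/-- LOP (curves linked with one of the two boundary curves).  Uses `StWND`, `StGAU`, `StPGL`.

PROOF.  First part.  `γ` = the concatenation of `P` and the segments from `pt y.1 y.2 0` to `pt y.1 y.2 (-1)`, to `pt o.1 o.2 (-1)`, to `pt o.1 o.2 0` (PGL with `N = 4`); closed, not in `Γ` (the points of the segments have negative height or are one of the end points, `o ∈ interior K0`, `y ∉ K0`).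
Suppose `γ` is homotopic to a constant path in the complement of `Γ`: `H`.  `G` from GAU for `K0`, `o`; `f x = (G (x 0, x 1) - 1, x 2)` is continuous and vanishes only on `frontier K0 × {0} ⊆ Γ` (`G = 1` iff in `K0 \ interior K0`; `K0` is closed).  WND for `f ∘ H`, `s1 = 1/4`: `f (γ 0) = (G o - 1, 0)`, `G o = 0`, `f (γ (1/4)) = (G y - 1, 0)`, `G y > 1`;
on `[0, 1/4]` the height is `≥ 0`, on `[1/4, 1]` it is `≤ 0`.  Second part: the same with `f x = (G (x 0, x 1) - 1, h - x 2)`, `G` for `K1`, and the segments above the plane `x 2 = h` (height `h + 1`). -/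
def StLOP : Prop := ∀ (K0 K1 : Set (ℝ × ℝ)) (h : ℝ), 0 < h → CB K0 → CB K1 → ∀ o y : ℝ × ℝ,
  (o ∈ interior K0 → y ∉ K0 → ∀ P : unitInterval → E3, Continuous P → P 0 = pt o.1 o.2 0 →
    P 1 = pt y.1 y.2 0 → (∀ s, 0 ≤ P s 2 ∧ P s ∉ Gm K0 K1 h) →
    ∃ γ ∈ NT (Gm K0 K1 h), ∀ s, γ s ∈ range P ∨ γ s 2 ≤ 0) ∧
  (o ∈ interior K1 → y ∉ K1 → ∀ P : unitInterval → E3, Continuous P → P 0 = pt o.1 o.2 h →
    P 1 = pt y.1 y.2 h → (∀ s, P s 2 ≤ h ∧ P s ∉ Gm K0 K1 h) →
    ∃ γ ∈ NT (Gm K0 K1 h), ∀ s, γ s ∈ range P ∨ h ≤ γ s 2)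

/-- LKA (curves which meet `S` only near a given point).  Uses `StLOP`, `StLCC`, `StCNE`, `StRPL`, `StPGL`.

PROOF.  `ModelAt S (Cn v) q` with `v` one of `vP, vY, tv`, `m ≥ 2` (MPS.int, RPL, CNE); LCC: `ρ0`, `L`; `ρ` from Cells; let `ρ' < min ρ0 ρ`, `ρ' ≤ r`.  `ball q ρ' ∩ L k` is path connected, nonempty and contained in `Sl h \ S`, so (connectedness, the `A i` are open and disjoint) in one `A (σ k)`.  `σ 0 ≠ σ 1`: otherwise `ball q ρ' ∩ A (σ 0)` is the union of the disjoint open sets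
`ball q ρ' ∩ L l` with `σ l = σ 0`, at least two of which are nonempty, but it is preconnected (Cells).  So there are `i < j` and `a ∈ A i`, `b ∈ A j` in `ball q ρ'`; the segment from `a` to `b` is in `ball q ρ' ⊆ Sl h`.
`o0 ∈ interior K0`, `o1 ∈ interior K1`, `R` as in Cells and so large that `K0, K1` are in `{|·| < R}`, `y = (R+1, 0)`.  Vertical segments: the points `pt o0 z`, `0 < z ≤ ε` are in `A 0`, the points `pt o1 z`, `h - ε ≤ z < h`, are in `A 1` (small `ε`), the points `pt y z`, `0 < z < h`, are in `A 2`; points of height `≤ 0` or `≥ h` which are not in `Γ` are not in `S`.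
`P` (concatenation, PGL) in the case `(i,j) = (0,2)`: `pt o0 0`, up to `pt o0 ε`, in `A 0` to `a`, segment to `b`, in `A 2` to `pt y (h/2)`, down to `pt y 0`.  Case `(0,1)`: `pt o0 0`, `pt o0 ε`, in `A 0` to `a`, segment to `b`, in `A 1` to `pt o1 (h-ε)`, up to `pt o1 (h+1)`, horizontally to `pt y (h+1)`, down to `pt y 0`.  In both cases LOP, first part.
Case `(1,2)`: `pt o1 h`, down to `pt o1 (h-ε)`, in `A 1` to `a`, segment to `b`, in `A 2` to `pt y (h/2)`, up to `pt y h`: LOP, second part.  `P` meets `S` only on the segment, so in `ball q r`; the other points of `γ` have height `≤ 0` (`≥ h`) and are not in `Γ`, so not in `S`. -/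
def StLKA : Prop := ∀ (K0 K1 : Set (ℝ × ℝ)) (h : ℝ) (S : Set E3) (A : Fin 3 → Set E3), 0 < h →
  CB K0 → CB K1 → MPS S (Gm K0 K1 h) → (∀ x ∈ S, x ∉ Gm K0 K1 h → x ∈ Sl h) →
  Cells K0 K1 h S A → ∀ q ∈ S, q ∉ Gm K0 K1 h → ∀ r : ℝ, 0 < r →
  ∃ γ ∈ NT (Gm K0 K1 h), ∀ s, γ s ∈ S → γ s ∈ Metric.ball q r

/-- CVS (three cells imply essential).  Uses `StLKA`, `StST1`, `StST2`, `StDSK`, `Pool.Agent.Helper69.MF.StHTE`.

PROOF.  HC: HTE (a path homotopic to `γ ∈ NT` is closed, avoids `Γ`, and if it were homotopic to a constant path `γ` would be).  Spans: if `γ ∈ NT` does not meet `S` then ST1, ST2, DSK (the paths are closed by HTE (4)) and transitivity give a homotopy to a constant path.  The second part of Ess: LKA. -/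
def StCVS : Prop := ∀ (K0 K1 : Set (ℝ × ℝ)) (h : ℝ) (S : Set E3) (A : Fin 3 → Set E3), 0 < h →
  CB K0 → CB K1 → MPS S (Gm K0 K1 h) → (∀ x ∈ S, x ∉ Gm K0 K1 h → x ∈ Sl h) →
  Cells K0 K1 h S A → HC (Gm K0 K1 h) (NT (Gm K0 K1 h)) ∧ Ess (Gm K0 K1 h) (NT (Gm K0 K1 h)) S

end Pool.Agent.Helper69.MC
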