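import Pool.Agent.Helper69.MC.StA

/-!
# Project MC (MP_9583f0_gt), part B: the cells.  Statements with proofs
-/

set_option autoImplicit false

open Set Topology Filter MeasureTheory
open Pool.Agent.Helper31.CY Pool.Agent.Helper69.MF

namespace Pool.Agent.Helper69.MC

/-! ### local structure -/

/-- CNE (the cones `plane`, `Y`, `T` as cut loci of linear functions).

PROOF.  `Cn vP`: `x 0 = - x 0`.  `Cn vY`: if `i, j = 1, 2`: `x 1 = 0` and `-(x 0)/2 ≤ x 0`: the ray `(t, 0)`, `t ≥ 0`; if `i, j = 0, 1`: `x 0 = -(x 0)/2 + (√3/2) x 1`, so `x 1 = √3 x 0`, and `x 0 ≤ -(x 0)/2 - (√3/2) x 1 = -2 x 0`, so `x 0 ≤ 0`: the third ray of `tri`; `0, 2`: the second ray.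
`Cn tv`: with `a i = dt x (tv i)`: `∑ a i = 0` and `x = (1/4) ∑ a i • tv i` (check the coordinates); if the minimum `m` is attained at `i, j` and `k, l` are the other two indices then `x = (1/4)((a k - m) • tv k + (a l - m) • tv l)` (`∑ tv i = 0`), so `x ∈ sector (tv k) (tv l)`; conversely `dt (tv i) (tv j)` is `3` for `i = j`, `-1` for `i ≠ j`, so
`x = s • tv k + t • tv l` has the values `3s - t, 3t - s, -s-t, -s-t`, minimum at the two other indices.  Adj: `vP`: `Sg vP 0 = {x 0 < 0}`, `Sg vP 1 = {x 0 > 0}`, `y = 0`.  `vY`: `-vY i ∈ Sg vY i`; `y = vY k` for the third index `k`.  `tv`: `-tv i ∈ Sg tv i`; `y = tv k + tv l`.  The last part: strict inequalities between linear functions;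
the minimum of finitely many numbers (at least one) is attained exactly once or at least twice. -/
def StCNE : Prop := Cn vY = Ycone ∧ Cn tv = Tcone ∧ Cn vP = {x : E3 | x 0 = 0} ∧
  Adj vP ∧ Adj vY ∧ Adj tv ∧
  ∀ (m : ℕ) (v : Fin m → E3), 0 < m →
    (∀ i, IsOpen (Sg v i) ∧ Convex ℝ (Sg v i) ∧ ∀ x ∈ Sg v i, ∀ t : ℝ, 0 < t → t • x ∈ Sg v i) ∧
    (∀ i j, i ≠ j → Disjoint (Sg v i) (Sg v j)) ∧ (Cn v)ᶜ = ⋃ i, Sg v i

/-- RPL (regular points are plane points).  Uses `StCNE` (`Cn vP = {x 0 = 0}`).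

PROOF.  `f`, `U` from RegP; `f q = 0`.  `G = (D 0 f q, D 1 f q, D 2 f q) ≠ 0`, `fderiv ℝ f q w = dt G w`, `N = G/|G|`, complete to `ON N e g`; `Φ x = pt (f x/|G|) (dt (x - q) e) (dt (x - q) g)`, `C¹` on `U`, `Φ q = 0`, `fderiv ℝ Φ q w = pt (dt N w) (dt w e) (dt w g)` has norm `‖w‖` (coordinates in an orthonormal basis).  `x ∈ S ↔ f x = 0 ↔ Φ x 0 = 0`. -/
def StRPL : Prop := ∀ (S : Set E3) (q : E3), q ∈ S → RegP S q → ModelAt S (Cn vP) q

/-- LC1 (local components).  Uses `StCNE`.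

PROOF.  `A = fderiv ℝ Φ p` is a linear isometry of `E3`, `Φ` has the strict derivative `A` at `p`; `Ψ = A⁻¹ ∘ Φ` has the strict derivative `id` at `p`, `Ψ p = 0`.  Inverse function theorem (`HasStrictFDerivAt.toOpenPartialHomeomorph` or `ApproximatesLinearOn`): there are `ρ0 > 0` with `ball p ρ0 ⊆ U` and a local inverse `G` of `Ψ`, `G 0 = p`, defined on
`ball 0 (2ρ0)`, with `G y - y` Lipschitz with the constant `1/4` there, and `Ψ` maps `ball p ρ0` injectively into `ball 0 (2ρ0)` with `G (Ψ x) = x`, `Ψ (G y) = y`.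
(1) `C i = A⁻¹ (Sg v i)` is an open convex cone (closed under multiplication by `t > 0`), nonempty (Adj).  `L i ∩ ball p ρ0 = {x ∈ ball p ρ0 : Ψ x ∈ C i}`: open, disjoint for different `i`; `x ∈ ball p ρ0`: `x ∉ S ↔ Φ x ∉ Cn v ↔ ∃ i, Φ x ∈ Sg v i`.
(2) For `|y| < 2ρ0` the function `s ↦ |G (s y) - p|` is nondecreasing on `[0,1]`: for `s < s'`: `G(s y) - p = s y + e₂`, `|e₂| ≤ s|y|/4`, `G(s'y) - G(sy) = (s'-s) y + e₁`, `|e₁| ≤ (s'-s)|y|/4`, so `⟨G(sy) - p, G(s'y) - G(sy)⟩ ≥ s(s'-s)|y|²(1 - 1/4 - 1/4 - 1/16) ≥ 0`, and `|a + b|² ≥ |a|² + 2⟨a,b⟩`.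
(3) Path connected: let `x ∈ ball p ρ`, `Ψ x = y ∈ C i`: the path `s ↦ G (s y)`, `s` from `1` down to a small `s > 0`, stays in `ball p ρ ∩ L i` (2), (`G(s y) ∈ ball p ρ ⊆ ball p ρ0`, `Ψ (G (s y)) = s y ∈ C i`).  Choose `η > 0` with `G (ball 0 η) ⊆ ball p ρ` (`|G y - p| ≤ (5/4)|y|`): all these points can be joined in `G (C i ∩ ball 0 η)`,
the continuous image of a nonempty convex set.  Nonempty. -/
def StLC1 : Prop := ∀ (S : Set E3) (m : ℕ) (v : Fin m → E3) (p : E3) (Φ : E3 → E3) (U : Set E3),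
  0 < m → Adj v → IsOpen U → p ∈ U → ContDiffOn ℝ 1 Φ U → Φ p = 0 →
  (∀ w, ‖fderiv ℝ Φ p w‖ = ‖w‖) → (∀ x ∈ U, x ∈ S ↔ Φ x ∈ Cn v) →
  ∃ ρ0 : ℝ, 0 < ρ0 ∧ Metric.ball p ρ0 ⊆ U ∧
    Loc S m p ρ0 (fun i => {x | x ∈ Metric.ball p ρ0 ∧ Φ x ∈ Sg v i})

/-- LC2 (the local components are adjacent).  Uses `StTC1`.

PROOF.  Shrink `U`: near `p` the derivative of `Φ` is invertible (it is isometric at `p`, continuity), and by the inverse function theorem `Φ` is a homeomorphism of a small open neighbourhood `W ⊆ ball p (min ρ ρ0)` of `p` onto an open neighbourhood of `0`, with inverse `G`.  `y` from Adj for `i, j`.  For small `s > 0` (e.g. `s` with `s y` in this neighbourhood) let `q = G (s y)`.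
`dt (s y) (v i) = dt (s y) (v j) < dt (s y) (v k)` for the other `k` (if `y = 0`, which is possible for `m = 2`, there are no other `k`), so `s y ∈ Cn v`, `q ∈ S`, and near `s y` the set `Cn v` is the plane `{z | dt z (v i - v j) = 0}` (the strict inequalities persist near `s y`; there the minimum is attained twice iff `dt z (v i) = dt z (v j)`).
`v i ≠ v j` (`Sg v i` is nonempty).  Contingent cone: TC1 at `q` with the chart `x ↦ Φ x - s y` and `M` the plane (a closed cone): `TCn S q = {w | dt (B w) (v i - v j) = 0}` with `B = fderiv ℝ Φ q` invertible; this is `{w | dt w N = 0}` for the vector `N` with `dt w N = dt (B w) (v i - v j)` (`N = ∑ dt (B (bv i)) (v i - v j) • bv i`), `N ≠ 0` as `B` is onto.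
Let `w` be in `Sg v i`: `dt w (v i) < dt w (v j)`; then `s y + ε w ∈ Sg v i` and `s y - ε w ∈ Sg v j` for small `ε > 0`, and `G (s y ± ε w)` is as close to `q` as we want, in `W ⊆ ball p ρ0`. -/
def StLC2 : Prop := ∀ (S : Set E3) (m : ℕ) (v : Fin m → E3) (p : E3) (Φ : E3 → E3) (U : Set E3)
  (ρ0 : ℝ), Adj v → IsOpen U → p ∈ U → ContDiffOn ℝ 1 Φ U → Φ p = 0 →
  (∀ w, ‖fderiv ℝ Φ p w‖ = ‖w‖) → (∀ x ∈ U, x ∈ S ↔ Φ x ∈ Cn v) → 0 < ρ0 →
  Metric.ball p ρ0 ⊆ U →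
  ∀ i j, i ≠ j → ∀ ρ : ℝ, 0 < ρ → ∃ q ∈ S, dist q p < ρ ∧
    (∃ N : E3, N ≠ 0 ∧ TCn S q = {w | dt w N = 0}) ∧
    ∀ r : ℝ, 0 < r → (∃ x ∈ Metric.ball q r, x ∈ Metric.ball p ρ0 ∧ Φ x ∈ Sg v i) ∧
      ∃ x ∈ Metric.ball q r, x ∈ Metric.ball p ρ0 ∧ Φ x ∈ Sg v j

/-- LCC (local components).  Uses `StLC1`, `StLC2`.

PROOF.  Unfold ModelAt, LC1, LC2 with the same `ρ0`. -/
def StLCC : Prop := ∀ (S : Set E3) (m : ℕ) (v : Fin m → E3) (p : E3), 0 < m → Adj v →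
  ModelAt S (Cn v) p → ∃ (ρ0 : ℝ) (L : Fin m → Set E3), Loc S m p ρ0 L ∧
    ∀ i j, i ≠ j → ∀ ρ : ℝ, 0 < ρ → ∃ q ∈ S, dist q p < ρ ∧
      (∃ N : E3, N ≠ 0 ∧ TCn S q = {w | dt w N = 0}) ∧
      ∀ r : ℝ, 0 < r → (Metric.ball q r ∩ L i).Nonempty ∧ (Metric.ball q r ∩ L j).Nonempty

/-- FRG (a point of `S \ Γ` with a plane as contingent cone is regular).  Uses `StTC1`, `StMDY`, `StMDT`.

PROOF.  MPS.int.  In the other cases TC1 gives `TCn S q = A⁻¹ M`, `A` a linear isometry (invertible), `M = Ycone` or `Tcone`.  The plane is invariant under `w ↦ -w`, so `M` is; but `pt 1 0 0 ∈ Ycone`, `pt (-1) 0 0 ∉ Ycone`; `tv 0 ∈ Tcone` and `-tv 0 ∉ Tcone`: `-tv 0 = s tv i + t tv j`, `i ≠ j`, `s, t ≥ 0`: let `k ≠ 0` be an index different from `i, j`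
(there are three nonzero indices): `dt (-tv 0) (tv k) = 1`, but `dt (s tv i + t tv j) (tv k) = -s - t ≤ 0`. -/
def StFRG : Prop := ∀ (S Γ : Set E3), MPS S Γ → ∀ q ∈ S, q ∉ Γ →
  (∃ N : E3, N ≠ 0 ∧ TCn S q = {w | dt w N = 0}) → RegP S q

/-! ### curves -/

/-- POS (a small disc can not be removed).  Uses `Pool.Agent.Helper69.MF.StFNT`, `Pool.Agent.Helper69.MF.StLIN`.

PROOF.  `ar (S ∩ ball q r) > 0`: let `f`, `U` be from RegP, `N` the unit normal, `N, e, g` orthonormal, `π x = dt (x - q) e • e + dt (x - q) g • g` the projection to the tangent plane (Lipschitz constant `1`).  For small `δ > 0` and `|a|, |b| < δ` the function `t ↦ f (q + a e + b g + t N)` changes sign on `[-ε, ε]` (`ε` small fixed, by continuity, as `f (q ± ε N)` have different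
signs), so there is a point of `S` in `ball q r` with the projection `a e + b g`; so `π (S ∩ ball q r)` contains an open square of the plane, `ar (S ∩ ball q r) ≥ ar (square) > 0` (LIN, second part, with `τ = e`, `n = g`; `LipschitzWith.hausdorffMeasure_image_le`).
`S' = S \ ball q r` is compact, `ar S' < ar S` as `ar S < ⊤` (FNT; `S ∩ ball q r` is measurable), so `S'` is not spanning (Mnz). -/
def StPOS : Prop := ∀ (S Γ : Set E3) (𝒞 : Set (unitInterval → E3)), MPS S Γ → Mnz 𝒞 S →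
  ∀ q ∈ S, RegP S q → ∀ r : ℝ, 0 < r → ∃ γ ∈ 𝒞, ∀ s, γ s ∈ S → γ s ∈ Metric.ball q r

/-- PGL (concatenation of `N` paths).

PROOF.  `c_k : [0,1] → [0,1]`, `c_k s = ` projection of `N s - k` to `[0,1]` (`Set.projIcc`), continuous.  `γ s = g 0 0 + ∑ k ∈ range N, (g k (c_k s) - g k 0)`.  For `s = (k + τ)/N`: `c_j s = 1` for `j < k`, `c_k s = τ`, `c_j s = 0` for `j > k`; the terms with `j < k` are `g j 1 - g j 0 = g (j+1) 0 - g j 0` (`j + 1 ≤ k < N`), the sum telescopes to `g k 0 - g 0 0`. -/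
def StPGL : Prop := ∀ (N : ℕ) (g : ℕ → unitInterval → E3), 0 < N → (∀ k, Continuous (g k)) →
  (∀ k, k + 1 < N → g k 1 = g (k + 1) 0) →
  ∃ γ : unitInterval → E3, Continuous γ ∧ ∀ k, k < N → ∀ s τ : unitInterval,
    (s : ℝ) = (k + (τ : ℝ)) / N → γ s = g k τ

/-- LSG (surgery on a closed curve).  Uses `StPGL`.

PROOF.  `F = {s | γ s ∈ P}` closed, `O = {s | γ s ∈ Q}` open, `F ⊆ O`.  If `F = ∅`: `γ' = γ`.  If `F` is everything: `γ' = c` constant, `c ∈ U \ S`, `H(t,s) = (1-t) γ s + t c ∈ U`.  Otherwise `O \ F` is nonempty (`O = F` would be clopen, `[0,1]` is connected): `s₀ ∈ O \ F`, `c₀ = γ s₀`, in `Q`, not in `P`, not in `S`.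
Let `N > 0` be such that a piece `[k/N, (k+1)/N]` which meets `F` is contained in `O` (`1/N` smaller than the distance of the compact disjoint sets `F` and `Oᶜ`, if `Oᶜ` is nonempty).  Let `z k = γ (k/N)` if `γ (k/N) ∉ P` and `z k = c₀` otherwise (`0 ≤ k ≤ N`).  A piece is bad if it meets `F`.  If piece `k` is not bad then `z k, z (k+1)` are the values of `γ` at its end points,
let `g k τ = γ ((k+τ)/N)`.  If it is bad: the end points are in `O`, so `z k, z (k+1)` are in `Q`, not in `P` and not in `S` (`γ s ∈ S → γ s ∈ P`), so there is a path `g k` in `U \ S` from `z k` to `z (k+1)`.  PGL: `γ'`.  `γ'` avoids `S` (on a good piece `γ' s = γ s ∉ P`).  `z 0 = z N` as `γ 0 = γ 1`, so `γ' 0 = γ' 1`.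
`H(t,s) = (1-t) γ s + t γ' s`: on good pieces it is `γ s ∉ Γ`; on bad pieces `γ s ∈ Q ⊆ U` and `γ' s ∈ U`, so it is in `U`, which does not meet `Γ`.  `H(t,0) = H(t,1)`. -/
def StLSG : Prop := ∀ (Γ U S P Q : Set E3) (γ : unitInterval → E3), Convex ℝ U → Disjoint U Γ →
  IsClosed P → IsOpen Q → Q ⊆ U → Lp Γ γ → (∀ s, γ s ∈ S → γ s ∈ P) →
  (∀ s, γ s ∈ P → γ s ∈ Q) →
  (∀ x y, x ∈ Q → x ∉ P → x ∉ S → y ∈ Q → y ∉ P → y ∉ S → JoinedIn (U \ S) x y) →
  (U \ S).Nonempty → ∃ γ' : unitInterval → E3, Hot Γ γ γ' ∧ ∀ s, γ' s ∉ S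

/-! ### components of the complement in the slab -/

/-- CPT (components, general facts).

PROOF.  `Sl h \ S` is open; components of open sets in `E3` are open (`IsOpen.connectedComponentIn`), connected, so path connected (`IsOpen.isConnected_iff_isPathConnected`).  Frontier: if `x ∈ frontier B`, `x ∈ Sl h`, `x ∉ S`, the component `B'` of `x` is open and meets `B` (`x ∈ closure B`), so `B = B'` contains `x`, but `B` is open and `x` is in its frontier.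
The other claims: `IsPreconnected.subset_connectedComponentIn`, `connectedComponentIn_eq`. -/
def StCPT : Prop := ∀ (h : ℝ) (S : Set E3), IsClosed S →
  (∀ x ∈ Sl h \ S, ∃ B, Cmp h S B ∧ x ∈ B) ∧
  (∀ B, Cmp h S B → IsOpen B ∧ IsPathConnected B ∧ B ⊆ Sl h \ S ∧
    (∀ x ∈ frontier B, x ∈ Sl h → x ∈ S) ∧
    ∀ C : Set E3, IsPreconnected C → C ⊆ Sl h \ S → (B ∩ C).Nonempty → C ⊆ B) ∧
  (∀ B B', Cmp h S B → Cmp h S B' → (B ∩ B').Nonempty → B = B') ∧
  ∀ x y, JoinedIn (Sl h \ S) x y ↔ ∃ B, Cmp h S B ∧ x ∈ B ∧ y ∈ B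

/-- FRM (the two sides of a regular point are in different components).  Uses `StPOS`, `StLSG`.

PROOF.  `Γ = Gm K0 K1 h`, `U = Sl h` (convex, disjoint from `Γ` as `x 2 ∈ {0, h}` on `Γ`).  Suppose `x`, `y` are joined in `U \ S`.  `r = ρ0/2`, `γ ∈ 𝒞` from POS.  LSG with `P = closedBall q r ∩ S`, `Q = ball q ρ0`: `γ s ∈ S → γ s ∈ P`; a point of `Q` not in `S` is in `L 0` or `L 1` (Loc), the sets `ball q ρ0 ∩ L k` are path connected and contained in
`U \ S`, one contains `x` and the other one `y`, so any two points of `Q \ S` are joined in `U \ S`.  `γ'` is homotopic to `γ`, so in `𝒞` (HC), but does not meet `S`: contradiction to `Spans`. -/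
def StFRM : Prop := ∀ (K0 K1 : Set (ℝ × ℝ)) (h : ℝ) (𝒞 : Set (unitInterval → E3)) (S : Set E3),
  Ctx K0 K1 h 𝒞 S → ∀ q ∈ S, RegP S q → ∀ (ρ0 : ℝ) (L : Fin 2 → Set E3), Loc S 2 q ρ0 L →
  Metric.ball q ρ0 ⊆ Sl h → ∀ i j, i ≠ j → ∀ x ∈ Metric.ball q ρ0 ∩ L i,
  ∀ y ∈ Metric.ball q ρ0 ∩ L j, ¬ JoinedIn (Sl h \ S) x y

/-- LDC (different local components are in different components).  Uses `StFRM`, `StLCC`, `StFRG`, `StRPL`, `StCNE`.

PROOF.  `Γ` is closed and `p ∉ Γ`, `p ∈ Sl h` (Ctx.sl): LCC, shrink `ρ0` (Loc for smaller `ρ0`: clear) so that `ball p ρ0 ⊆ Sl h`.  Let `i ≠ j`, `x ∈ ball ∩ L i`, `y ∈ ball ∩ L j` be joined in `Sl h \ S`.  `q` from LCC with `ρ = ρ0`: `q ∈ ball p ρ0 ⊆ Sl h`, so `q ∉ Γ`, `q` is regular (FRG), `ModelAt S (Cn vP) q` (RPL); LCC for `q`, `vP`: `ρ1`, `L'` with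
(shrink) `ball q ρ1 ⊆ ball p ρ0`.  `ball q ρ1` contains `x' ∈ L i`, `y' ∈ L j`, not in `S`, so `x' ∈ L' a`, `y' ∈ L' b`.  `a ≠ b`: `ball q ρ1 ∩ L' a` is connected and contained in `ball p ρ0 \ S`, the disjoint union of the open sets `ball p ρ0 ∩ L k`, so contained in one `L k`; if `a = b` it would contain points of `L i` and of `L j`, which are disjoint.
`x'` and `x` are joined in `ball p ρ0 ∩ L i ⊆ Sl h \ S`, `y` and `y'` too, so `x'` and `y'` are joined in `Sl h \ S`: contradiction to FRM. -/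
def StLDC : Prop := ∀ (K0 K1 : Set (ℝ × ℝ)) (h : ℝ) (𝒞 : Set (unitInterval → E3)) (S : Set E3),
  Ctx K0 K1 h 𝒞 S → ∀ p ∈ S, p ∉ Gm K0 K1 h → ∀ (m : ℕ) (v : Fin m → E3), 0 < m → Adj v →
  ModelAt S (Cn v) p → ∃ (ρ0 : ℝ) (L : Fin m → Set E3), Loc S m p ρ0 L ∧
    Metric.ball p ρ0 ⊆ Sl h ∧ ∀ i j, i ≠ j → ∀ x ∈ Metric.ball p ρ0 ∩ L i,
      ∀ y ∈ Metric.ball p ρ0 ∩ L j, ¬ JoinedIn (Sl h \ S) x y

/-- BUB (no bubbles).  Uses `StCPT`, `StLDC`, `StLCC`, `StFRG`, `StRPL`, `StCNE`, `StPOS`, `StLSG`.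

PROOF.  Suppose `frontier B ⊆ S`.  (1) `frontier B` meets `Sl h`: otherwise `B` is clopen in the connected set `Sl h`, `B = Sl h`, and the frontier of `Sl h` is unbounded (it contains all `pt a 0 0`), but `S` is bounded.  Let `p ∈ frontier B ∩ Sl h`; `p ∈ S`, `p ∉ Γ`.
(2) There is a regular point `q ∈ frontier B ∩ Sl h`: by MPS.int, RPL and CNE `ModelAt S (Cn v) p` with `v` one of `vP, vY, tv` (`m ≥ 2`), LCC: `ρ0`, `L`, shrink so that `ball p ρ0 ⊆ Sl h`.  `B` is open and `p ∈ closure B`: there is `b ∈ B ∩ ball p ρ0`, `b ∉ S`, `b ∈ L i`; `ball p ρ0 ∩ L i` is connected and contained in `Sl h \ S`, so in `B` (CPT).  Choose `j ≠ i`; LCC: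
`q ∈ S`, in `ball p ρ0`, regular (FRG), every ball around `q` meets `L i` (and, if small, it is inside `ball p ρ0`), so `q ∈ closure B`, and `q ∉ B` as `q ∈ S`.
(3) LDC for `q`, `vP` (RPL): `ρ1`, `L'`, `ball q ρ1 ⊆ Sl h`.  `B` meets `ball q ρ1 ∩ L' a` for some `a`, so contains it; let `b ≠ a` be the other index; `B ∩ ball q ρ1 ∩ L' b = ∅` (LDC; points of `B` are joined in `B`, CPT).  `r = ρ1/2`, `γ ∈ 𝒞` from POS.  LSG with `U = Sl h`, `P = closure B ∪ (closedBall q r ∩ S)`, `Q = B ∪ ball q ρ1`: if `γ s ∈ closure B` and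
`γ s ∉ B` then `γ s ∈ frontier B ⊆ S`, so `γ s ∈ ball q r ⊆ Q`.  A point of `Q` which is not in `P` and not in `S` is in `ball q ρ1`, not in `B`, so in `L' b`; two of them are joined in `ball q ρ1 ∩ L' b ⊆ Sl h \ S`.  `γ' ∈ 𝒞` does not meet `S`: contradiction. -/
def StBUB : Prop := ∀ (K0 K1 : Set (ℝ × ℝ)) (h : ℝ) (𝒞 : Set (unitInterval → E3)) (S : Set E3),
  Ctx K0 K1 h 𝒞 S → ∀ B, Cmp h S B → ¬ frontier B ⊆ S

/-- CCL (the other components).  Uses `StCPT`, `StCLO`.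

PROOF.  `Γ = Gm K0 K1 h`.  Let `x` be a point with `x 2 = 0`, `(x 0, x 1) ∉ frontier K0`.  Then `x ∉ S` (Ctx.sl: a point of `S` of height `0` is in `Γ`, and as `h > 0` it is over `frontier K0`).  `S` is closed: there is `ρ > 0` with `ball x ρ ∩ S = ∅`; `ball x ρ ∩ Sl h` is convex and nonempty, contained in `Sl h \ S`, so in one component `A(x)`.
`A(x') = A(x)` for `x'` of height `0` close to `x` (the two half balls meet), so `A` is constant on the connected sets `interior K0 × {0}` and `K0ᶜ × {0}` (CLO: `frontier K0 = K0 \ interior K0`, `Kᶜ` and `interior K` are preconnected; a locally constant function on a preconnected set is constant).  The same at the height `h` with `K1`.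
`A 0` = the value on `interior K0 × {0}` (nonempty), `A 1` = the value on `interior K1 × {h}`, `A 2` = the value on `K0ᶜ × {0}`.  It is also the value on `K1ᶜ × {h}`: let `S`, `K0 × {0}`, `K1 × {h}` be in `{rad x < R}`; the set `{x ∈ Sl h : R < rad x}` does not meet `S`, is connected (the image of a connected set: `pt (t cos s) (t sin s) z`, `t > R`, `0 < z < h`),
and meets the half balls at points `pt (R+1) 0 0` and `pt (R+1) 0 h`; so it is contained in both components.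
Let `B` be a component and `x ∈ frontier B`, `x ∉ S`.  By CPT `x ∉ Sl h`; `x ∈ closure (Sl h)`, so `x 2 = 0` or `x 2 = h`; not over the frontier of `K0` (`K1`) as `Γ ⊆ S` (MPS.sub).  The half ball at `x` meets `B` (`B ⊆ Sl h` meets `ball x ρ`), so `B = A(x)` is one of the three. -/
def StCCL : Prop := ∀ (K0 K1 : Set (ℝ × ℝ)) (h : ℝ) (𝒞 : Set (unitInterval → E3)) (S : Set E3),
  Ctx K0 K1 h 𝒞 S → ∃ A : Fin 3 → Set E3, (∀ i, Cmp h S (A i)) ∧
  (∀ B, Cmp h S B → frontier B ⊆ S ∨ ∃ i, B = A i) ∧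
  (∀ x : E3, (x 0, x 1) ∈ interior K0 → x 2 = 0 →
    ∃ r : ℝ, 0 < r ∧ ∀ y ∈ Sl h, dist y x < r → y ∈ A 0) ∧
  (∀ x : E3, (x 0, x 1) ∈ interior K1 → x 2 = h →
    ∃ r : ℝ, 0 < r ∧ ∀ y ∈ Sl h, dist y x < r → y ∈ A 1) ∧
  (∀ x : E3, ((x 0, x 1) ∉ K0 ∧ x 2 = 0) ∨ ((x 0, x 1) ∉ K1 ∧ x 2 = h) →
    ∃ r : ℝ, 0 < r ∧ ∀ y ∈ Sl h, dist y x < r → y ∈ A 2) ∧
  ∃ R : ℝ, ∀ y ∈ Sl h, R < rad y → y ∈ A 2

/-- MCF (final statement).  Uses `StCPT`, `StCCL`, `StBUB`, `StLDC`, `StCNE`, `StRPL`.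

PROOF.  `A` from CCL; by BUB every component is one of the `A i`, so `⋃ A i = Sl h \ S` (CPT); open, path connected (CPT).  Let `p ∈ S \ Γ`, `ModelAt S (Cn v) p`, `v` one of `vP, vY, tv` (`m = 2, 3, 4`; RPL, CNE), LDC: `ρ0`, `L`.  `ball p ρ0 ∩ L k` is connected, contained in `Sl h \ S`, so in one `A (σ k)`; for `k ≠ l` the sets `A (σ k)`, `A (σ l)` are different
(otherwise points would be joined in a component, CPT).  So `σ` is injective, `m ≤ 3`: no `T` points.  There is a singular point (Ctx and Sing), so one with `m = 3`, `σ` is bijective and the three sets `A i` are different, so disjoint (CPT).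
Cell structure at `p`: `ρ = ρ0`, `0 < ρ' < ρ`: if `ball p ρ' ∩ A i` is nonempty, it contains some `x ∉ S`, `x ∈ L k`; then `ball p ρ' ∩ A i = ball p ρ' ∩ L k`: `⊇` as `ball p ρ' ∩ L k` is connected, contained in `Sl h \ S` and meets `A i`; `⊆`: `y ∈ ball p ρ' ∩ A i` is not in `S`, so in some `L l`; `l = k` by LDC, as `x`, `y` are joined in `A i`.  It is path connected (Loc). -/
def StMCF : Prop := ∀ (K0 K1 : Set (ℝ × ℝ)) (h : ℝ) (𝒞 : Set (unitInterval → E3)) (S : Set E3),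
  Ctx K0 K1 h 𝒞 S → Sing S (Gm K0 K1 h) →
  (∀ p ∈ S, p ∉ Gm K0 K1 h → ¬ ModelAt S Tcone p) ∧
  ∃ A : Fin 3 → Set E3, (∀ i, IsOpen (A i) ∧ IsPathConnected (A i)) ∧
  (∀ i j, i ≠ j → Disjoint (A i) (A j)) ∧ (⋃ i, A i) = Sl h \ S ∧
  (∀ p ∈ S, p ∉ Gm K0 K1 h → ∃ ρ : ℝ, 0 < ρ ∧ Metric.ball p ρ ⊆ Sl h ∧ ∀ ρ' : ℝ, 0 < ρ' →
    ρ' < ρ → ∀ i, IsPreconnected (Metric.ball p ρ' ∩ A i)) ∧
  (∀ x : E3, (x 0, x 1) ∈ interior K0 → x 2 = 0 →
    ∃ r : ℝ, 0 < r ∧ ∀ y ∈ Sl h, dist y x < r → y ∈ A 0) ∧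
  (∀ x : E3, (x 0, x 1) ∈ interior K1 → x 2 = h →
    ∃ r : ℝ, 0 < r ∧ ∀ y ∈ Sl h, dist y x < r → y ∈ A 1) ∧
  (∀ x : E3, ((x 0, x 1) ∉ K0 ∧ x 2 = 0) ∨ ((x 0, x 1) ∉ K1 ∧ x 2 = h) →
    ∃ r : ℝ, 0 < r ∧ ∀ y ∈ Sl h, dist y x < r → y ∈ A 2) ∧
  ∃ R : ℝ, ∀ y ∈ Sl h, R < rad y → y ∈ A 2

end Pool.Agent.Helper69.MC
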