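import Pool.Agent.Helper69.MF.StA
import Pool.Agent.Helper31.CY.All
import Pool.Agent.Helper7.MF.M_LIN
import Pool.Agent.Helper42.MF.M_FNT
import Pool.Agent.Helper47.MF.M_HTE
import Pool.Agent.Helper55.MC.M_SMX
import Pool.Agent.Helper10.MC.M_GRM
import Pool.Agent.Helper70.MC.M_HPL
import Pool.Agent.Helper80.MC.M_HSS
import Pool.Agent.Helper32.MC.M_CLO
import Pool.Agent.Helper65.MC.M_HUL
import Pool.Agent.Helper5.MC.M_BNB
import Pool.Agent.Helper42.MC.M_SLB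
import Pool.Agent.Helper1.MC.M_CNE
import Pool.Agent.Helper64.MC.M_RPL
import Pool.Agent.Helper62.MC.M_LC1
import Pool.Agent.Helper95.MC.M_LC2
import Pool.Agent.Helper99.MC.M_LCC
import Pool.Agent.Helper86.MC.M_FRG
import Pool.Agent.Helper87.MC.M_POS
import Pool.Agent.Helper15.MC.M_PGL
import Pool.Agent.Helper12.MC.M_LSG
import Pool.Agent.Helper44.MC.M_CPT
import Pool.Agent.Helper69.MC.StC
import Pool.Agent.Helper69.MC.W.FRW
import Pool.Agent.Helper69.MC.W.LDW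
import Pool.Agent.Helper69.MC.W.BUW
import Pool.Agent.Helper69.MC.W.CCW
import Pool.Agent.Helper69.MC.W.MCW

/-!
# Project MC (MP_9583f0_gt): assembly
-/

set_option autoImplicit false

open Set Topology Filter MeasureTheory
open Pool.Agent.Helper31.CY Pool.Agent.Helper69.MF

namespace Pool.Agent.Helper69.MC

theorem aSMX : StSMX := Pool.Agent.Helper55.MC.hSMX
theorem aGRM : StGRM := Pool.Agent.Helper10.MC.hGRM aTC2
theorem aHPL : StHPL := Pool.Agent.Helper70.MC.hHPL aTC2 aGRM aSMX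
theorem aHSS : StHSS := Pool.Agent.Helper80.MC.hHSS aTC1 aMDY aMDT
theorem aCLO : StCLO := Pool.Agent.Helper32.MC.hCLO
theorem aHUL : StHUL := Pool.Agent.Helper65.MC.hHUL aHPL aHSS
theorem aBNB : StBNB := Pool.Agent.Helper5.MC.hBNB aTC1 aTC2
theorem aSLB : StSLB := Pool.Agent.Helper42.MC.hSLB aHUL aHSS aCLO aBNB aHPL
theorem aCNE : StCNE := Pool.Agent.Helper1.MC.hCNE
theorem aRPL : StRPL := Pool.Agent.Helper64.MC.hRPL aCNE
theorem aLC1 : StLC1 := Pool.Agent.Helper62.MC.hLC1 aCNE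
theorem aLC2 : StLC2 := Pool.Agent.Helper95.MC.hLC2 aTC1
theorem aLCC : StLCC := Pool.Agent.Helper99.MC.hLCC aLC1 aLC2
theorem aFRG : StFRG := Pool.Agent.Helper86.MC.hFRG aTC1 aMDY aMDT
theorem aPOS : StPOS := Pool.Agent.Helper87.MC.hPOS Pool.Agent.Helper42.MF.hFNT Pool.Agent.Helper7.MF.hLIN
theorem aPGL : StPGL := Pool.Agent.Helper15.MC.hPGL
theorem aLSG : StLSG := Pool.Agent.Helper12.MC.hLSG aPGL
theorem aCPT : StCPT := Pool.Agent.Helper44.MC.hCPT
theorem aFRW : StFRW := WF.hFRW aLSG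
theorem aLDW : StLDW := WL.hLDW aFRW aLCC aFRG aRPL aCNE
theorem aBUW : StBUW := WB.hBUW aCPT aLDW aLCC aFRG aRPL aCNE aLSG
theorem aCCW : StCCW := WC.hCCW aCPT aCLO
theorem aMCW : StMCW := WM.hMCW aCPT aCCW aBUW aLDW aCNE aRPL

end Pool.Agent.Helper69.MC
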