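import Pool.Agent.Helper69.MF.Defs

/-!
# Project MC (MP_9583f0_gt): the cells of area-minimizing films, definitions

THEOREM.  `K0, K1` convex bodies in the plane, `h > 0`, `Γ = ∂K0 × {0} ∪ ∂K1 × {h}`, `𝒞` a set of closed curves in the complement of `Γ` which is closed under (free) homotopy,
`S` a minimal Plateau surface with boundary `Γ` which has the least area among the compact sets which meet every curve of `𝒞`.  If `S` is singular then it has no `T` points, `S \ Γ` lies in
the open slab `U = {0 < x 2 < h}`, `U \ S` has exactly three components and `S` defines a cell structure in `U`.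

Idea.  If the two sides of a regular point `q` were in the same component of `U \ S`, or one of them in a component whose boundary is contained in `S`, then a small disc around `q` could be
removed from `S` (curves through the disc can be pushed off inside the convex set `U`).  The components of `U \ S` whose boundary is not contained in `S` are at most three (the ones above `K0`, below `K1` and the unbounded one).
Near a `Y` (`T`) point there are three (four) pairwise adjacent local components, so they are in different components of `U \ S`.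
-/

set_option autoImplicit false

open Set Topology Filter MeasureTheory

namespace Pool.Agent.Helper69.MC

open Pool.Agent.Helper31.CY Pool.Agent.Helper69.MF

/-- the boundary: two convex curves in parallel planes -/
def Gm (K0 K1 : Set (ℝ × ℝ)) (h : ℝ) : Set E3 :=
  {x | (x 0, x 1) ∈ frontier K0 ∧ x 2 = 0} ∪ {x | (x 0, x 1) ∈ frontier K1 ∧ x 2 = h}

/-- convex body in the plane -/
def CB (K : Set (ℝ × ℝ)) : Prop := IsCompact K ∧ Convex ℝ K ∧ (interior K).Nonempty

/-- the open slab -/
def Sl (h : ℝ) : Set E3 := {x | 0 < x 2 ∧ x 2 < h}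

/-- the points where the minimum of the linear functions `dt x (v i)` is attained at least twice -/
def Cn {m : ℕ} (v : Fin m → E3) : Set E3 :=
  {x | ∃ i j, i ≠ j ∧ dt x (v i) = dt x (v j) ∧ ∀ k, dt x (v i) ≤ dt x (v k)}

/-- the points where `dt x (v i)` is the strict minimum -/
def Sg {m : ℕ} (v : Fin m → E3) (i : Fin m) : Set E3 := {x | ∀ j, j ≠ i → dt x (v i) < dt x (v j)}

/-- the plane `x 0 = 0` is `Cn vP` -/
noncomputable def vP : Fin 2 → E3 := ![pt 1 0 0, pt (-1) 0 0]

/-- the cone `Y` is `Cn vY` -/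
noncomputable def vY : Fin 3 → E3 :=
  ![pt 1 0 0, pt (-(1 / 2)) (Real.sqrt 3 / 2) 0, pt (-(1 / 2)) (-(Real.sqrt 3 / 2)) 0]

/-- every two cells of `Cn v` are adjacent -/
def Adj {m : ℕ} (v : Fin m → E3) : Prop :=
  (∀ i, (Sg v i).Nonempty) ∧
  ∀ i j, i ≠ j → ∃ y : E3, dt y (v i) = dt y (v j) ∧ ∀ k, k ≠ i → k ≠ j → dt y (v i) < dt y (v k)

/-- local components `L i` of the complement of `S` near `p` -/
def Loc (S : Set E3) (m : ℕ) (p : E3) (ρ0 : ℝ) (L : Fin m → Set E3) : Prop :=
  0 < ρ0 ∧ (∀ i, IsOpen (Metric.ball p ρ0 ∩ L i)) ∧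
  (∀ ρ : ℝ, 0 < ρ → ρ ≤ ρ0 → ∀ i, IsPathConnected (Metric.ball p ρ ∩ L i)) ∧
  (∀ x ∈ Metric.ball p ρ0, x ∉ S ↔ ∃ i, x ∈ L i) ∧
  ∀ i j, i ≠ j → Disjoint (L i) (L j)

/-- the assumptions -/
structure Ctx (K0 K1 : Set (ℝ × ℝ)) (h : ℝ) (𝒞 : Set (unitInterval → E3)) (S : Set E3) : Prop where
  h0 : 0 < h
  c0 : CB K0
  c1 : CB K1
  hc : HC (Gm K0 K1 h) 𝒞
  mps : MPS S (Gm K0 K1 h)
  mnz : Mnz 𝒞 S
  sl : ∀ x ∈ S, x ∉ Gm K0 K1 h → x ∈ Sl h

/-- `B` is a connected component of `U \ S` -/
def Cmp (h : ℝ) (S B : Set E3) : Prop :=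
  ∃ x ∈ Sl h \ S, B = connectedComponentIn (Sl h \ S) x

end Pool.Agent.Helper69.MC
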