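import Pool.Agent.Helper69.MC.Defs

/-!
# Project MC (MP_9583f0_gt): essential spanning sets, cells, definitions
-/

set_option autoImplicit false

open Set Topology Filter MeasureTheory

namespace Pool.Agent.Helper69.MC

open Pool.Agent.Helper31.CY Pool.Agent.Helper69.MF

/-- `S` meets every path of `𝒞`, but no set obtained from `S` by removing a small ball around a point of `S \ Γ` does -/
def Ess (Γ : Set E3) (𝒞 : Set (unitInterval → E3)) (S : Set E3) : Prop :=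
  Spans 𝒞 S ∧ ∀ q ∈ S, q ∉ Γ → ∀ r : ℝ, 0 < r → ¬ Spans 𝒞 (S \ Metric.ball q r)

/-- the closed paths in the complement of `Γ` which are not homotopic to a constant path -/
def NT (Γ : Set E3) : Set (unitInterval → E3) :=
  {γ | Lp Γ γ ∧ ¬ ∃ c : E3, Hot Γ γ (fun _ => c)}

/-- `A 0, A 1, A 2` are the components of `Sl h \ S`, `A 0` is above `K0`, `A 1` is below `K1`, `A 2` is unbounded, and `S` defines a cell structure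
in the slab `Sl h` -/
def Cells (K0 K1 : Set (ℝ × ℝ)) (h : ℝ) (S : Set E3) (A : Fin 3 → Set E3) : Prop :=
  (∀ i, IsOpen (A i) ∧ IsPathConnected (A i)) ∧
  (∀ i j, i ≠ j → Disjoint (A i) (A j)) ∧ (⋃ i, A i) = Sl h \ S ∧
  (∀ p ∈ S, p ∉ Gm K0 K1 h → ∃ ρ : ℝ, 0 < ρ ∧ Metric.ball p ρ ⊆ Sl h ∧ ∀ ρ' : ℝ, 0 < ρ' →
    ρ' < ρ → ∀ i, IsPreconnected (Metric.ball p ρ' ∩ A i)) ∧
  (∀ x : E3, (x 0, x 1) ∈ interior K0 → x 2 = 0 →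
    ∃ r : ℝ, 0 < r ∧ ∀ y ∈ Sl h, dist y x < r → y ∈ A 0) ∧
  (∀ x : E3, (x 0, x 1) ∈ interior K1 → x 2 = h →
    ∃ r : ℝ, 0 < r ∧ ∀ y ∈ Sl h, dist y x < r → y ∈ A 1) ∧
  (∀ x : E3, ((x 0, x 1) ∉ K0 ∧ x 2 = 0) ∨ ((x 0, x 1) ∉ K1 ∧ x 2 = h) →
    ∃ r : ℝ, 0 < r ∧ ∀ y ∈ Sl h, dist y x < r → y ∈ A 2) ∧
  ∃ R : ℝ, ∀ y ∈ Sl h, R < rad y → y ∈ A 2

/-- the assumptions (essential films) -/
structure Ctw (K0 K1 : Set (ℝ × ℝ)) (h : ℝ) (𝒞 : Set (unitInterval → E3)) (S : Set E3) : Prop where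
  h0 : 0 < h
  c0 : CB K0
  c1 : CB K1
  hc : HC (Gm K0 K1 h) 𝒞
  mps : MPS S (Gm K0 K1 h)
  ess : Ess (Gm K0 K1 h) 𝒞 S
  sl : ∀ x ∈ S, x ∉ Gm K0 K1 h → x ∈ Sl h

/-- the two discs -/
def Dsk (K0 K1 : Set (ℝ × ℝ)) (h : ℝ) : Set E3 :=
  {x | (x 0, x 1) ∈ K0 ∧ x 2 = 0} ∪ {x | (x 0, x 1) ∈ K1 ∧ x 2 = h}

end Pool.Agent.Helper69.MC
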