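import Pool.Agent.Helper69.MC.All
import Pool.Agent.Helper13.MC.M_EMZ
import Pool.Agent.Helper32.MC.M_GAU
import Pool.Agent.Helper36.MC.M_GNC
import Pool.Agent.Helper45.MC.M_DSK
import Pool.Agent.Helper70.MC.M_ST1
import Pool.Agent.Helper55.MC.M_ST2
import Pool.Agent.Helper12.MC.M_WND
import Pool.Agent.Helper27.MC.M_LOP
import Pool.Agent.Helper95.MC.M_LKA
import Pool.Agent.Helper29.MC.M_CVS
import Pool.Agent.Helper69.MC.StD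
import Pool.Agent.Helper88.MC.M_MNT

/-!
# Project MC (MP_9583f0_gt): final theorem
-/

set_option autoImplicit false

open Set Topology Filter MeasureTheory
open Pool.Agent.Helper31.CY Pool.Agent.Helper69.MF

namespace Pool.Agent.Helper69.MC

theorem aHTE : StHTE := Pool.Agent.Helper47.MF.hHTE
theorem aEMZ : StEMZ := Pool.Agent.Helper13.MC.hEMZ aPOS aLCC aFRG aCNE
theorem aGAU : StGAU := Pool.Agent.Helper32.MC.hGAU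
theorem aGNC : StGNC := Pool.Agent.Helper36.MC.hGNC
theorem aDSK : StDSK := Pool.Agent.Helper45.MC.hDSK aGNC aHTE
theorem aST1 : StST1 := Pool.Agent.Helper70.MC.hST1 aGAU
theorem aST2 : StST2 := Pool.Agent.Helper55.MC.hST2 aGAU
theorem aWND : StWND := Pool.Agent.Helper12.MC.hWND
theorem aLOP : StLOP := Pool.Agent.Helper27.MC.hLOP aWND aGAU aPGL
theorem aLKA : StLKA := Pool.Agent.Helper95.MC.hLKA aLOP aLCC aCNE aRPL aPGL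
theorem aCVS : StCVS := Pool.Agent.Helper29.MC.hCVS aLKA aST1 aST2 aDSK aHTE
theorem aMNT : StMNT := Pool.Agent.Helper88.MC.hMNT aHTE

theorem isClosed_Gm (K0 K1 : Set (ℝ × ℝ)) (h : ℝ) : IsClosed (Gm K0 K1 h) := by
  unfold Gm
  apply IsClosed.union
  · apply IsClosed.inter
    · exact isClosed_frontier.preimage (by fun_prop : Continuous fun x : E3 => (x 0, x 1))
    · exact isClosed_eq (by fun_prop) continuous_const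
  · apply IsClosed.inter
    · exact isClosed_frontier.preimage (by fun_prop : Continuous fun x : E3 => (x 0, x 1))
    · exact isClosed_eq (by fun_prop) continuous_const

/-- essential films and cell structures -/
theorem essential (K0 K1 : Set (ℝ × ℝ)) (h : ℝ) (h0 : 0 < h) (c0 : CB K0) (c1 : CB K1) (S : Set E3)
    (hS : MPS S (Gm K0 K1 h)) (hs : Sing S (Gm K0 K1 h)) :
    (∀ x ∈ S, x ∉ Gm K0 K1 h → x ∈ Sl h) ∧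
    ((∃ 𝒞, HC (Gm K0 K1 h) 𝒞 ∧ Ess (Gm K0 K1 h) 𝒞 S) ↔ ∃ A : Fin 3 → Set E3, Cells K0 K1 h S A) ∧
    ((∃ 𝒞, HC (Gm K0 K1 h) 𝒞 ∧ Ess (Gm K0 K1 h) 𝒞 S) ↔ Ess (Gm K0 K1 h) (NT (Gm K0 K1 h)) S) ∧
    ((∃ 𝒞, HC (Gm K0 K1 h) 𝒞 ∧ Ess (Gm K0 K1 h) 𝒞 S) →
      ∀ p ∈ S, p ∉ Gm K0 K1 h → ¬ ModelAt S Tcone p) ∧
    ∀ 𝒞, HC (Gm K0 K1 h) 𝒞 → Mnz 𝒞 S → Ess (Gm K0 K1 h) 𝒞 S ∧ Mnz (NT (Gm K0 K1 h)) S := by
  have hsl := aSLB K0 K1 h h0 c0 c1 S hS hs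
  have h1 : ∀ 𝒞, HC (Gm K0 K1 h) 𝒞 → Ess (Gm K0 K1 h) 𝒞 S →
      (∀ p ∈ S, p ∉ Gm K0 K1 h → ¬ ModelAt S Tcone p) ∧ ∃ A : Fin 3 → Set E3, Cells K0 K1 h S A :=
    fun 𝒞 hC hE => aMCW K0 K1 h 𝒞 S ⟨h0, c0, c1, hC, hS, hE, hsl⟩ hs
  have h2 : ∀ A : Fin 3 → Set E3, Cells K0 K1 h S A →
      HC (Gm K0 K1 h) (NT (Gm K0 K1 h)) ∧ Ess (Gm K0 K1 h) (NT (Gm K0 K1 h)) S :=
    fun A hA => aCVS K0 K1 h S A h0 c0 c1 hS hsl hA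
  refine ⟨hsl, ⟨?_, ?_⟩, ⟨?_, ?_⟩, ?_, ?_⟩
  · rintro ⟨𝒞, hC, hE⟩
    exact (h1 𝒞 hC hE).2
  · rintro ⟨A, hA⟩
    exact ⟨_, h2 A hA⟩
  · rintro ⟨𝒞, hC, hE⟩
    obtain ⟨A, hA⟩ := (h1 𝒞 hC hE).2
    exact (h2 A hA).2
  · intro hE
    refine ⟨NT (Gm K0 K1 h), ?_, hE⟩
    constructor
    · intro γ hγ
      exact hγ.1
    · intro γ hγ γ' hγ'
      refine ⟨(aHTE (Gm K0 K1 h)).2.2.2.1 γ γ' hγ', ?_⟩
      rintro ⟨c, hc⟩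
      exact hγ.2 ⟨c, (aHTE (Gm K0 K1 h)).2.2.1 γ γ' _ hγ' hc⟩
  · rintro ⟨𝒞, hC, hE⟩
    exact (h1 𝒞 hC hE).1
  · intro 𝒞 hC hM
    have hE : Ess (Gm K0 K1 h) 𝒞 S := aEMZ S _ 𝒞 (isClosed_Gm K0 K1 h) hS hM
    obtain ⟨A, hA⟩ := (h1 𝒞 hC hE).2
    exact ⟨hE, aMNT K0 K1 h S 𝒞 h0 hC hM (h2 A hA).2.1⟩

end Pool.Agent.Helper69.MC
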