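import Pool.Agent.Helper69.MC.StC

/-!
# Project MC (MP_9583f0_gt), part D: minimizers of one class minimize in the largest class.  Statement with proof
-/

set_option autoImplicit false

open Set Topology Filter MeasureTheory
open Pool.Agent.Helper31.CY Pool.Agent.Helper69.MF

namespace Pool.Agent.Helper69.MC

/-- MNT (a minimizer for one class which spans the largest class minimizes for the largest class).  Uses `Pool.Agent.Helper69.MF.StHTE`.

PROOF.  `Γ = Gm K0 K1 h`.  It is enough that `𝒞 ⊆ NT Γ`: then a compact `S'` which spans `NT Γ` spans `𝒞`, so `ar S ≤ ar S'`.  Let `γ ∈ 𝒞` (so `Lp Γ γ`, HC) be homotopic to the constant path `c`; `c ∉ Γ` (`H (1, 0)`).  There is `c' ∉ S` and a continuous path from `c` to `c'` in the complement of `Γ`: let `z` be a number different from `0` and `h` such that the vertical segment from `c` to the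
point `c₁` with the same horizontal part and height `z` does not meet `Γ` (`z = c 2` if `c 2 ∉ {0, h}`, otherwise `z = c 2 - h/2`, as between `c` and `c₁` only the end point `c` has height `0` or `h`); then go horizontally (height `z`) to a point `c'` outside the bounded set `S`.  The path gives a homotopy of constant paths, so (HTE) `γ` is homotopic to
the constant path `c'`, which is in `𝒞` (HC) and does not meet `S`: a contradiction to `Spans 𝒞 S` (Mnz). -/
def StMNT : Prop := ∀ (K0 K1 : Set (ℝ × ℝ)) (h : ℝ) (S : Set E3) (𝒞 : Set (unitInterval → E3)),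
  0 < h → HC (Gm K0 K1 h) 𝒞 → Mnz 𝒞 S → Spans (NT (Gm K0 K1 h)) S → Mnz (NT (Gm K0 K1 h)) S

end Pool.Agent.Helper69.MC
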