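import Pool.Agent.Helper69.MC.StB
import Pool.Agent.Helper69.MC.Defs2

/-!
# Project MC (MP_9583f0_gt): the statements of part B for essential films (`Ctw` instead of `Ctx`)
-/

set_option autoImplicit false

open Set Topology Filter MeasureTheory
open Pool.Agent.Helper31.CY Pool.Agent.Helper69.MF

namespace Pool.Agent.Helper69.MC

def StFRW : Prop := ∀ (K0 K1 : Set (ℝ × ℝ)) (h : ℝ) (𝒞 : Set (unitInterval → E3)) (S : Set E3),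
  Ctw K0 K1 h 𝒞 S → ∀ q ∈ S, RegP S q → ∀ (ρ0 : ℝ) (L : Fin 2 → Set E3), Loc S 2 q ρ0 L →
  Metric.ball q ρ0 ⊆ Sl h → ∀ i j, i ≠ j → ∀ x ∈ Metric.ball q ρ0 ∩ L i,
  ∀ y ∈ Metric.ball q ρ0 ∩ L j, ¬ JoinedIn (Sl h \ S) x y

def StLDW : Prop := ∀ (K0 K1 : Set (ℝ × ℝ)) (h : ℝ) (𝒞 : Set (unitInterval → E3)) (S : Set E3),
  Ctw K0 K1 h 𝒞 S → ∀ p ∈ S, p ∉ Gm K0 K1 h → ∀ (m : ℕ) (v : Fin m → E3), 0 < m → Adj v →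
  ModelAt S (Cn v) p → ∃ (ρ0 : ℝ) (L : Fin m → Set E3), Loc S m p ρ0 L ∧
    Metric.ball p ρ0 ⊆ Sl h ∧ ∀ i j, i ≠ j → ∀ x ∈ Metric.ball p ρ0 ∩ L i,
      ∀ y ∈ Metric.ball p ρ0 ∩ L j, ¬ JoinedIn (Sl h \ S) x y

def StBUW : Prop := ∀ (K0 K1 : Set (ℝ × ℝ)) (h : ℝ) (𝒞 : Set (unitInterval → E3)) (S : Set E3),
  Ctw K0 K1 h 𝒞 S → ∀ B, Cmp h S B → ¬ frontier B ⊆ S

def StCCW : Prop := ∀ (K0 K1 : Set (ℝ × ℝ)) (h : ℝ) (S : Set E3), 0 < h → CB K0 → CB K1 →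
  MPS S (Gm K0 K1 h) → (∀ x ∈ S, x ∉ Gm K0 K1 h → x ∈ Sl h) →
  ∃ A : Fin 3 → Set E3, (∀ i, Cmp h S (A i)) ∧
  (∀ B, Cmp h S B → frontier B ⊆ S ∨ ∃ i, B = A i) ∧
  (∀ x : E3, (x 0, x 1) ∈ interior K0 → x 2 = 0 →
    ∃ r : ℝ, 0 < r ∧ ∀ y ∈ Sl h, dist y x < r → y ∈ A 0) ∧
  (∀ x : E3, (x 0, x 1) ∈ interior K1 → x 2 = h →
    ∃ r : ℝ, 0 < r ∧ ∀ y ∈ Sl h, dist y x < r → y ∈ A 1) ∧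
  (∀ x : E3, ((x 0, x 1) ∉ K0 ∧ x 2 = 0) ∨ ((x 0, x 1) ∉ K1 ∧ x 2 = h) →
    ∃ r : ℝ, 0 < r ∧ ∀ y ∈ Sl h, dist y x < r → y ∈ A 2) ∧
  ∃ R : ℝ, ∀ y ∈ Sl h, R < rad y → y ∈ A 2

def StMCW : Prop := ∀ (K0 K1 : Set (ℝ × ℝ)) (h : ℝ) (𝒞 : Set (unitInterval → E3)) (S : Set E3),
  Ctw K0 K1 h 𝒞 S → Sing S (Gm K0 K1 h) →
  (∀ p ∈ S, p ∉ Gm K0 K1 h → ¬ ModelAt S Tcone p) ∧ ∃ A : Fin 3 → Set E3, Cells K0 K1 h S A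

end Pool.Agent.Helper69.MC
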